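import Pool.Agent.Y381.UC.Defs

/-!
# Project UC: the statistic after one step (helper702)
-/

set_option autoImplicit false

namespace Pool.Agent.Y702.UC

open Finset Pool.Agent.TH996.Urn Pool.Agent.Y381.UC

variable {n s : ℕ}

lemma ne1 (v : Fin (n + 4)) : v + 1 ≠ v := by
  intro h
  have h1 : (1 : Fin (n + 4)) = 0 := by
    have h2 := congrArg (fun z => z - v) h
    simp only [sub_self] at h2
    rw [← h2]
    abel
  have h3 := congrArg Fin.val h1
  simp at h3

lemma ne2 (v : Fin (n + 4)) : v + 1 + 1 ≠ v := by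
  intro h
  have h1 : (1 + 1 : Fin (n + 4)) = 0 := by
    have h2 := congrArg (fun z => z - v) h
    simp only [sub_self] at h2
    rw [← h2]
    abel
  have h3 := congrArg Fin.val h1
  rw [Fin.val_add] at h3
  simp at h3
  rw [Nat.mod_eq_of_lt (by omega)] at h3
  omega

lemma one (hU : S_UPD) (χ : Fin (n + 4) → Fin s) (v w : Fin (n + 4)) (hw : w = v + 1 ∨ v = w + 1)
    (P : Prop) [Decidable P] :
    cuts (if P then Function.update χ w (χ v) else χ) ≤ cuts χ ∧
    (cuts (if P then Function.update χ w (χ v) else χ) = cuts χ → ∀ u, IsPhase χ u →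
      ∃ u', IsPhase (if P then Function.update χ w (χ v) else χ) u' ∧
        ∀ z, (z ≠ w ∨ ¬ P) → u' z = u z) := by
  by_cases h : P
  · simp only [if_pos h]
    obtain ⟨h1, h2⟩ := hU n s χ v w hw
    refine ⟨h1, fun he u hu => ?_⟩
    obtain ⟨u', h3, h4⟩ := h2 he u hu
    exact ⟨u', h3, fun z hz => h4 z (hz.resolve_right (not_not.2 h))⟩
  · simp only [if_neg h]
    exact ⟨le_rfl, fun _ u hu => ⟨u, hu, fun _ _ => rfl⟩⟩

lemma upd_eq (x : Config (Fin (n + 4)) s) (χ : Fin (n + 4) → Fin s) (v w : Fin (n + 4))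
    (hw : w + 1 = v) :
    upd x χ v = if nb x w = 0 then
      Function.update (if nb x (v + 1) = 0 then Function.update χ (v + 1) (χ v) else χ) w
        ((if nb x (v + 1) = 0 then Function.update χ (v + 1) (χ v) else χ) v)
      else (if nb x (v + 1) = 0 then Function.update χ (v + 1) (χ v) else χ) := by
  have hv1 : v ≠ v + 1 := (ne1 v).symm
  have hw1 : v + 1 ≠ w := by
    rintro rfl
    exact ne2 v hw
  have e1 : (if nb x (v + 1) = 0 then Function.update χ (v + 1) (χ v) else χ) v = χ v := by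
    split_ifs
    · rw [Function.update_of_ne hv1]
    · rfl
  rw [e1]
  funext z
  unfold upd
  by_cases hz1 : z = w
  · subst hz1
    by_cases h0 : nb x z = 0
    · rw [if_pos ⟨Or.inr hw.symm, h0⟩, if_pos h0, Function.update_self]
    · rw [if_neg (fun h => h0 h.2), if_neg h0]
      split_ifs
      · rw [Function.update_of_ne hw1.symm]
      · rfl
  · have e2 : ¬ (v = z + 1) := by
      intro h
      rw [← hw] at h
      exact hz1 (add_right_cancel h).symm
    have e3 : ∀ χ1 : Fin (n + 4) → Fin s,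
        (if nb x w = 0 then Function.update χ1 w (χ v) else χ1) z = χ1 z := by
      intro χ1
      split_ifs
      · rw [Function.update_of_ne hz1]
      · rfl
    rw [e3]
    by_cases hz2 : z = v + 1
    · subst hz2
      by_cases h0 : nb x (v + 1) = 0
      · rw [if_pos ⟨Or.inl rfl, h0⟩, if_pos h0, Function.update_self]
      · rw [if_neg (fun h => h0 h.2), if_neg h0]
    · rw [if_neg (by rintro ⟨h | h, _⟩; exacts [hz2 h, e2 h])]
      split_ifs
      · rw [Function.update_of_ne hz2]
      · rfl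

lemma lam_eq (m : ℕ) : (lam n m : ℂ) = om n m + (om n m)⁻¹ := by
  unfold lam om
  rw [← Complex.exp_neg]
  push_cast
  rw [Complex.two_cos]
  congr 2
  ring

theorem t_ST (hU : S_UPD) (hN : S_NB) : S_ST := by
  intro n s x χ v c hc hx
  obtain ⟨w, hw⟩ : ∃ w : Fin (n + 4), w + 1 = v := ⟨v - 1, sub_add_cancel v 1⟩
  have hv1 : v + 1 ≠ v := ne1 v
  have hw1 : v + 1 ≠ w := by
    rintro rfl
    exact ne2 v hw
  have hwv : w ≠ v := by
    rintro rfl
    exact ne1 _ hw
  set χ1 : Fin (n + 4) → Fin s :=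
    if nb x (v + 1) = 0 then Function.update χ (v + 1) (χ v) else χ with hχ1
  obtain ⟨a1, a2⟩ := one hU χ v (v + 1) (Or.inl rfl) (nb x (v + 1) = 0)
  obtain ⟨b1, b2⟩ := one hU χ1 v w (Or.inr hw.symm) (nb x w = 0)
  have e0 := upd_eq x χ v w hw
  rw [← hχ1] at e0 a1 a2
  rw [← e0] at b1 b2
  refine ⟨b1.trans a1, fun he u hu => ?_⟩
  have c1 : cuts χ1 = cuts χ := le_antisymm a1 (he ▸ b1)
  obtain ⟨u1, hu1, hu1'⟩ := a2 c1 u hu
  obtain ⟨u', hu', hu''⟩ := b2 (he.trans c1.symm) u1 hu1
  refine ⟨u', hu', ?_⟩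
  have k0 : ∀ z, z ≠ v + 1 → z ≠ w → u' z = u z := fun z h1 h2 => by
    rw [hu'' z (Or.inl h2), hu1' z (Or.inl h1)]
  have k1 : nb x (v + 1) ≠ 0 → u' (v + 1) = u (v + 1) := fun h => by
    rw [hu'' (v + 1) (Or.inl hw1), hu1' (v + 1) (Or.inr h)]
  have k2 : nb x w ≠ 0 → u' w = u w := fun h => by
    rw [hu'' w (Or.inr h), hu1' w (Or.inl hw1.symm)]
  have kv : u' v = u v := k0 v hv1.symm hwv.symm
  have hupv : upd x χ v v = χ v := by
    unfold upd
    rw [if_neg]
    rintro ⟨h | h, _⟩
    · exact hv1 h.symm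
    · exact hv1 h.symm
  set S := step (SimpleGraph.cycleGraph (n + 4)) x v c with hS
  set m := cuts χ with hm
  have hom : om n m ≠ 0 := Complex.exp_ne_zero _
  have D0 : ∀ z, z ≠ v + 1 → z ≠ w → (nb S z : ℂ) * u' z - nb x z * u z = 0 := by
    intro z h1 h2
    have h3 : ¬ (z = v + 1 ∨ v = z + 1) := by
      rintro (h | h)
      · exact h1 h
      · rw [← hw] at h
        exact h2 (add_right_cancel h).symm
    rw [k0 z h1 h2, (hN n s x χ v z c hc hx).1 h3, sub_self]
  have D1 : (nb S (v + 1) : ℂ) * u' (v + 1) - nb x (v + 1) * u (v + 1) = om n m * u v := by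
    obtain ⟨-, n1, n2, n3, -⟩ := hN n s x χ v (v + 1) c hc hx
    by_cases h0 : nb x (v + 1) = 0
    · have h1 : nb S (v + 1) = 1 := n1 (Or.inl rfl) h0
      have h2 : tau (upd x χ v) v = 1 := by
        unfold tau
        rw [if_pos]
        rw [hupv]
        unfold upd
        rw [if_pos ⟨Or.inl rfl, h0⟩]
      rw [h0, h1, hu'.2 v, h2, he, kv]
      push_cast
      ring
    · rw [k1 h0]
      have h3 := hu.2 v
      by_cases hcol : χ (v + 1) = χ v
      · have h1 : nb S (v + 1) = nb x (v + 1) + 1 := n2 (Or.inl rfl) hcol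
        have h2 : tau χ v = 1 := by
          unfold tau
          rw [if_pos hcol.symm]
        rw [h1, h3, h2]
        push_cast
        ring
      · have h1 : nb S (v + 1) + 1 = nb x (v + 1) := n3 (Or.inl rfl) hcol h0
        have h2 : tau χ v = -1 := by
          unfold tau
          rw [if_neg (fun h => hcol h.symm)]
        rw [← h1, h3, h2]
        push_cast
        ring
  have D2 : (nb S w : ℂ) * u' w - nb x w * u w = (om n m)⁻¹ * u v := by
    obtain ⟨-, n1, n2, n3, -⟩ := hN n s x χ v w c hc hx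
    by_cases h0 : nb x w = 0
    · have h1 : nb S w = 1 := n1 (Or.inr hw.symm) h0
      have h2 : tau (upd x χ v) w = 1 := by
        unfold tau
        rw [if_pos]
        rw [hw, hupv]
        unfold upd
        rw [if_pos ⟨Or.inr hw.symm, h0⟩]
      have h3 := hu'.2 w
      rw [hw, h2, he, kv] at h3
      rw [h0, h1, h3]
      push_cast
      field_simp
      ring
    · rw [k2 h0]
      have h3 := hu.2 w
      rw [hw] at h3
      by_cases hcol : χ w = χ v
      · have h1 : nb S w = nb x w + 1 := n2 (Or.inr hw.symm) hcol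
        have h2 : tau χ w = 1 := by
          unfold tau
          rw [if_pos (by rw [hw]; exact hcol)]
        rw [h1, h3, h2]
        push_cast
        field_simp
        ring
      · have h1 : nb S w + 1 = nb x w := n3 (Or.inr hw.symm) hcol h0
        have h2 : tau χ w = -1 := by
          unfold tau
          rw [if_neg (by rw [hw]; exact hcol)]
        rw [← h1, h3, h2]
        push_cast
        field_simp
        ring
  have hsum : WW S u' - WW x u = om n m * u v + (om n m)⁻¹ * u v := by
    unfold WW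
    rw [← sum_sub_distrib]
    rw [sum_eq_add (v + 1) w hw1 (fun z _ hz => D0 z hz.1 hz.2) (fun h => absurd (mem_univ _) h)
      (fun h => absurd (mem_univ _) h), D1, D2]
  rw [lam_eq, add_mul, ← hsum]
  ring

end Pool.Agent.Y702.UC
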